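import Pool.Agent.Q19.JL.LS2

/-!
# The strong inequality of Lang and Silverman with the relative Faltings height and the explicit
# constant `1 / 48`, for almost all elliptic curves over a number field, invariants of all heights

The problem asks for constants `c₁`, `c₂`, depending on the number field `K` and on `g`, such that
every `P ∈ A(K)` lies, up to a multiple at most `c₂`, in a proper abelian subvariety of degree at
most `c₂ deg A`, or has canonical height at least `c₁ max (h_F(A/K), 1)`, with `h_F` the RELATIVE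
Faltings height, and generates `A` under `End(A)`.

`K` is any number field. The invariants `j ≠ 0, 1728` in `K`, of ALL heights, are ordered by the
product `radical j` of the norms of the primes (not dividing six) at which `j` reduces to `0`, `1728`
or `∞`; there are `X ^ (2 / 3 + o(1))` with `radical j ≤ X`. For every `ε > 0`, for all of them outside
a set of power-saving proportion and for ALL elliptic curves `E` over `K` of invariant `j` (all
twists), all `g`, all polarizations `M` of `E ^ g` and all points `P ≠ 0` of `E ^ g` over `K`, the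
absolute canonical height of `P` is at least `(1 / 48 - ε) max (h_F(E/K), 1)`. Hence, for all products
of powers `A = ∏ E_i ^ (g_i)` of such curves the alternative of the problem holds with `c₂ = 1` and
`c₁ = (1 / 48 - ε) / g`.

`SPt a b` is the group of the rational points over `K` of the elliptic curve
`E : y² = x³ + a x + b`, `sht P` the height of the `x`-coordinate of `P` (relative to `K`), `chat P`
the canonical height, the limit of `sht (2 ^ k P) / 4 ^ k`, and `chatM M P` the canonical height of
the point `P` of `E ^ g` for the polarization given by the symmetric positive definite matrix `M`.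
The absolute heights are the quotients by `n = [K : ℚ]`.

Proof: for almost all `j` of all heights almost all of the height of `j` comes from simple poles, and
the same for `1 / j` and `1 / (j - 1728)` (theorem of the library on almost all points of the line
`x + y + z = 0`). Then the lower bound of the library for the canonical height gives
`chat P ≥ (1 / 24 - η) h + r / 4`, where `r` is the contribution of the primes at which `E` is a
ramified twist of a curve of good reduction, and the exact exponents of the minimal discriminant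
give `12 n h_F(E/K) ≤ 24 h + 8 r + C`.
-/

set_option autoImplicit false
set_option linter.unusedSectionVars false

namespace Pool.Agent.Results.MP_f5471b_nt.ExplicitConstantAllHeights

open NumberField IsDedekindDomain Pool.Agent.TH942 Pool.Agent.TH910.LS

/-- the modular invariant `j(τ) = E₄(τ) ^ 3 / Δ(τ) = 1 / q + 744 + ⋯` -/
noncomputable def jFun (τ : UpperHalfPlane) : ℂ :=
  ModularForm.E₄ τ ^ 3 / ModularForm.discriminant τ

/-- the archimedean term `- log (|Δ(τ)| (Im τ) ^ 6)` of the Faltings height -/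
noncomputable def arch (τ : UpperHalfPlane) : ℝ :=
  -Real.log (‖ModularForm.discriminant τ‖ * τ.im ^ 6)

section Defs

variable {K : Type} [Field K] [NumberField K]

/-- the points `τ w` have modular invariant `j` -/
def IsPeriod (j : K) (τ : InfinitePlace K → UpperHalfPlane) : Prop :=
  ∀ w, jFun (τ w) = w.embedding j

/-- the equation is integral at `v` -/
def IntAt (v : HeightOneSpectrum (𝓞 K)) (E : WeierstrassCurve K) : Prop :=
  v.valuation K E.a₁ ≤ 1 ∧ v.valuation K E.a₂ ≤ 1 ∧ v.valuation K E.a₃ ≤ 1 ∧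
    v.valuation K E.a₄ ≤ 1 ∧ v.valuation K E.a₆ ≤ 1

/-- the exponent of `v` in the minimal discriminant of the curve: the least valuation at `v` of the
discriminant of a Weierstrass equation of the curve over `K` which is integral at `v` -/
noncomputable def discExp (v : HeightOneSpectrum (𝓞 K)) (E : WeierstrassCurve K) : ℕ :=
  sInf {m : ℕ | ∃ C : WeierstrassCurve.VariableChange K, IntAt v (C • E) ∧
    v.valuation K (C • E).Δ = WithZero.exp (-(m : ℤ))}

/-- the relative (not stabilised) Faltings height of `y² = x³ + a x + b` over `K`: `12 n h_F` is the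
logarithm of the norm of the minimal discriminant plus the archimedean terms -/
noncomputable def faltings (a b : K) (τ : InfinitePlace K → UpperHalfPlane) : ℝ :=
  (∑ᶠ v : HeightOneSpectrum (𝓞 K),
      (discExp v (⟨0, 0, 0, a, b⟩ : WeierstrassCurve K) : ℝ) *
        Real.log (Ideal.absNorm v.asIdeal : ℝ) +
    ∑ w : InfinitePlace K, (w.mult : ℝ) * arch (τ w)) / (12 * Module.finrank ℚ K)

/-- the `j`-invariant of `y² = x³ + a x + b` -/
noncomputable def jInv (a b : K) : K := 6912 * a ^ 3 / (4 * a ^ 3 + 27 * b ^ 2)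

open Classical in
/-- The strong lower bound with constant `c` for all powers, with all polarizations, of all elliptic
curves over `K` of invariant `j`. -/
def StrongLS (c : ℝ) (j : K) : Prop :=
  ∀ (a b : K) (τ : InfinitePlace K → UpperHalfPlane), 4 * a ^ 3 + 27 * b ^ 2 ≠ 0 →
    jInv a b = j → IsPeriod j τ →
    ∀ (g : ℕ) (M : Matrix (Fin g) (Fin g) ℤ), (M.map (Int.cast : ℤ → ℝ)).PosDef →
    ∀ P : Fin g → SPt a b, P ≠ 0 →
      c * max (faltings a b τ) 1 ≤ chatM M P / Module.finrank ℚ K

/-- the product of the norms of the primes not dividing six at which `j` reduces to `0`, `1728` or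
`∞` -/
noncomputable def radical (j : K) : ℝ :=
  ∏ᶠ v ∈ {v : HeightOneSpectrum (𝓞 K) | v.valuation K 6 = 1 ∧
    (v.valuation K j ≠ 1 ∨ v.valuation K (j - 1728) ≠ 1)}, (Ideal.absNorm v.asIdeal : ℝ)

variable (K)

/-- the invariants `j ≠ 0, 1728`, of whatever height, with `radical j ≤ X` -/
def Invariants (X : ℝ) : Set K := {j | j ≠ 0 ∧ j ≠ 1728 ∧ radical j ≤ X}

end Defs

section Aux

open Pool.Agent.Y733.LS

variable {K : Type} [Field K] [NumberField K]

theorem inv_eq (X : ℝ) : Invariants K X = Pool.Agent.Q19.JL.Iv K X := by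
  ext j
  constructor
  · rintro ⟨h0, h1, h2⟩
    refine ⟨h0, h1, ?_⟩
    rw [← Pool.Agent.Q19.JL.rad_eq h0 h1]
    exact h2
  · rintro ⟨h0, h1, h2⟩
    refine ⟨h0, h1, ?_⟩
    rw [← Pool.Agent.Q19.JL.rad_eq h0 h1] at h2
    exact h2

theorem n_pos : (0 : ℝ) < Module.finrank ℚ K := by
  exact_mod_cast Module.finrank_pos (R := ℚ) (M := K)

theorem strong_of {c : ℝ} {j : K} (h : Pool.Agent.Q19.JL.StrP c j) : StrongLS c j := by
  intro a b τ hD hj hτ g M hM P hP
  have hτ' : Pool.Agent.TH876.FH.IsPeriod (jj a b) τ := by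
    have e : jj a b = j := hj
    rw [e]
    exact hτ
  have h1 := h a b τ hD hj hτ' g M hM P hP
  rw [le_div_iff₀ n_pos]
  exact h1

end Aux

open Classical in
/-- no torsion -/
theorem part_five {K : Type} [Field K] [NumberField K] {c : ℝ} (hc : 0 < c) {j : K}
    (hj : StrongLS c j) (a b : K) (τ : InfinitePlace K → UpperHalfPlane)
    (hD : 4 * a ^ 3 + 27 * b ^ 2 ≠ 0) (hab : jInv a b = j) (hτ : IsPeriod j τ)
    (P : SPt a b) (hP : IsOfFinAddOrder P) : P = 0 := by
  by_contra hne
  have hn := n_pos (K := K)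
  set P' : Fin 1 → SPt a b := fun _ => P with hP'
  have h1 := hj a b τ hD hab hτ 1 1 (by
    have : (Matrix.map (1 : Matrix (Fin 1) (Fin 1) ℤ) (Int.cast : ℤ → ℝ)) = 1 := by
      ext i j
      fin_cases i
      fin_cases j
      simp
    rw [this]
    exact Matrix.PosDef.one) P' (by
      intro h0
      exact hne (congrFun h0 0))
  have h2 : chatM (1 : Matrix (Fin 1) (Fin 1) ℤ) P' = 0 := by
    unfold chatM
    simp only [Finset.univ_unique, Fin.default_eq_zero, Finset.sum_singleton, hP']
    have h3 : chat P = 0 := Pool.Agent.Y733.LS.tors_zero (a := a) (b := b) hD hP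
    have h4 : chat (P + P) = 0 := Pool.Agent.Y733.LS.tors_zero (a := a) (b := b) hD (hP.add hP)
    rw [h3, h4]
    simp
  rw [h2, zero_div] at h1
  have h6 : 0 < c * max (faltings a b τ) 1 := mul_pos hc (lt_max_of_lt_right one_pos)
  linarith

open Classical in
/-- products of powers -/
theorem part_six {K : Type} [Field K] [NumberField K] {c : ℝ} (hc : 0 < c) {r : ℕ}
    (hr : 0 < r) (a b : Fin r → K) (τ : Fin r → InfinitePlace K → UpperHalfPlane)
    (hD : ∀ i, 4 * a i ^ 3 + 27 * b i ^ 2 ≠ 0) (hj : ∀ i, StrongLS c (jInv (a i) (b i)))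
    (hτ : ∀ i, IsPeriod (jInv (a i) (b i)) (τ i)) (g : Fin r → ℕ) (hg : ∀ i, 1 ≤ g i)
    (M : ∀ i, Matrix (Fin (g i)) (Fin (g i)) ℤ)
    (hM : ∀ i, ((M i).map (Int.cast : ℤ → ℝ)).PosDef) (P : ∀ i, Fin (g i) → SPt (a i) (b i)) :
    (∃ i, P i = 0) ∨ ((∀ i, ∃ k, ¬ IsOfFinAddOrder (P i k)) ∧
      c / (∑ i, g i : ℕ) * max (∑ i, g i * faltings (a i) (b i) (τ i)) 1 ≤
        (∑ i, chatM (M i) (P i)) / Module.finrank ℚ K) := by
  by_cases h0 : ∃ i, P i = 0
  · exact Or.inl h0
  right
  push Not at h0
  refine ⟨fun i => ?_, ?_⟩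
  · by_contra hcon
    push Not at hcon
    apply h0 i
    funext k
    exact part_five hc (hj i) (a i) (b i) (τ i) (hD i) rfl (hτ i) _ (hcon k)
  · have h1 : ∀ i, c * max (faltings (a i) (b i) (τ i)) 1 ≤
        chatM (M i) (P i) / Module.finrank ℚ K := fun i =>
      hj i (a i) (b i) (τ i) (hD i) rfl (hτ i) (g i) (M i) (hM i) (P i) (h0 i)
    set G : ℕ := ∑ i, g i with hG
    have hGi : ∀ i, g i ≤ G := fun i => Finset.single_le_sum (fun _ _ => Nat.zero_le _)
      (Finset.mem_univ i)
    have hG1 : 1 ≤ G := (hg ⟨0, hr⟩).trans (hGi ⟨0, hr⟩)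
    have hG0 : (0 : ℝ) < G := by exact_mod_cast hG1
    have h2 : max (∑ i, g i * faltings (a i) (b i) (τ i)) 1 ≤
        ∑ i, (g i : ℝ) * max (faltings (a i) (b i) (τ i)) 1 := by
      apply max_le
      · exact Finset.sum_le_sum fun i _ =>
          mul_le_mul_of_nonneg_left (le_max_left _ _) (Nat.cast_nonneg _)
      · have h3 : (G : ℝ) ≤ ∑ i, (g i : ℝ) * max (faltings (a i) (b i) (τ i)) 1 := by
          rw [hG]
          push_cast
          refine Finset.sum_le_sum fun i _ => ?_
          exact le_mul_of_one_le_right (Nat.cast_nonneg _) (le_max_right _ _)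
        have h4 : (1 : ℝ) ≤ G := by exact_mod_cast hG1
        linarith
    calc c / G * max (∑ i, g i * faltings (a i) (b i) (τ i)) 1
        ≤ c / G * ∑ i, (g i : ℝ) * max (faltings (a i) (b i) (τ i)) 1 :=
          mul_le_mul_of_nonneg_left h2 (by positivity)
      _ = ∑ i, ((g i : ℝ) / G) * (c * max (faltings (a i) (b i) (τ i)) 1) := by
          rw [Finset.mul_sum]
          refine Finset.sum_congr rfl fun i _ => ?_
          ring
      _ ≤ ∑ i, chatM (M i) (P i) / Module.finrank ℚ K := by
          refine Finset.sum_le_sum fun i _ => ?_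
          refine le_trans (mul_le_of_le_one_left ?_ ?_) (h1 i)
          · exact mul_nonneg hc.le (le_trans zero_le_one (le_max_right _ _))
          · rw [div_le_one hG0]
            exact_mod_cast hGi i
      _ = _ := by rw [Finset.sum_div]

open Classical in
/-- **Theorem.** (1) There are `X ^ (2 / 3 + o(1))` invariants, of all heights, with
`radical j ≤ X`. (2) For every `ε > 0` the strong lower bound with the constant `1 / 48 - ε` and the
relative Faltings height holds for all but a power-saving proportion of them, for all elliptic curves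
of invariant `j`, all powers and polarizations. (3) For all products of powers
`A = ∏ E_i ^ (g_i)`, `g = ∑ g_i`, of curves whose invariants are good for `c`, and all polarizations
`M_i`, each `P ∈ A(K)` has a component `P_i = 0` in some `E_i ^ (g_i)`, or each `P_i` has a component
of infinite order and the canonical height of `P` is at least `(c / g) max (h_F(A/K), 1)`.
(4) `chat` is the limit of `sht (2 ^ k P) / 4 ^ k`. -/
theorem result :
    (∀ (K : Type) [Field K] [NumberField K] (δ : ℝ), 0 < δ → ∃ X₀ : ℝ, ∀ X : ℝ, X₀ ≤ X →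
      (Invariants K X).Finite ∧ X ^ (2 / 3 - δ) ≤ ((Invariants K X).ncard : ℝ) ∧
      ((Invariants K X).ncard : ℝ) ≤ X ^ (2 / 3 + δ)) ∧
    (∀ (K : Type) [Field K] [NumberField K] (ε : ℝ), 0 < ε → ∃ ν X₀ : ℝ, 0 < ν ∧
      ∀ X : ℝ, X₀ ≤ X →
        (({j | j ∈ Invariants K X ∧ ¬ StrongLS (1 / 48 - ε) j} : Set K).ncard : ℝ) ≤
          X ^ (-ν) * (Invariants K X).ncard) ∧
    (∀ (K : Type) [Field K] [NumberField K] (c : ℝ), 0 < c → ∀ r : ℕ, 0 < r →
      ∀ (a b : Fin r → K) (τ : Fin r → InfinitePlace K → UpperHalfPlane),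
      (∀ i, 4 * a i ^ 3 + 27 * b i ^ 2 ≠ 0) → (∀ i, StrongLS c (jInv (a i) (b i))) →
      (∀ i, IsPeriod (jInv (a i) (b i)) (τ i)) → ∀ g : Fin r → ℕ, (∀ i, 1 ≤ g i) →
      ∀ (M : ∀ i, Matrix (Fin (g i)) (Fin (g i)) ℤ),
      (∀ i, ((M i).map (Int.cast : ℤ → ℝ)).PosDef) →
      ∀ P : ∀ i, Fin (g i) → SPt (a i) (b i),
        (∃ i, P i = 0) ∨ ((∀ i, ∃ k, ¬ IsOfFinAddOrder (P i k)) ∧
          c / (∑ i, g i : ℕ) * max (∑ i, g i * faltings (a i) (b i) (τ i)) 1 ≤
            (∑ i, chatM (M i) (P i)) / Module.finrank ℚ K)) ∧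
    (∀ (K : Type) [Field K] [NumberField K] (a b : K), 4 * a ^ 3 + 27 * b ^ 2 ≠ 0 →
      ∀ P : SPt a b, Filter.Tendsto (fun k : ℕ => sht ((2 ^ k : ℕ) • P) / 4 ^ k) Filter.atTop
        (nhds (chat P))) := by
  refine ⟨fun K _ _ δ hδ => ?_, fun K _ _ ε hε => ?_,
    fun K _ _ c hc r hr a b τ hD hj hτ g hg M hM P => part_six hc hr a b τ hD hj hτ g hg M hM P,
    fun _ _ _ _ _ hD P => (chat_spec hD).1 P⟩
  · obtain ⟨X1, hX1, h1⟩ := Pool.Agent.Q19.JL.Iv_upper K δ hδ
    obtain ⟨X2, hX2, h2⟩ := Pool.Agent.Q19.JL.Iv_lower K δ hδ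
    refine ⟨max X1 X2, fun X hX => ?_⟩
    rw [inv_eq]
    exact ⟨Pool.Agent.Q19.JL.Iv_fin K (hX1.trans ((le_max_left _ _).trans hX)),
      h2 X ((le_max_right _ _).trans hX), h1 X ((le_max_left _ _).trans hX)⟩
  · obtain ⟨ν, X₀, hν, -, h⟩ := Pool.Agent.Q19.JL.str_prop K ε hε
    refine ⟨ν, X₀, hν, fun X hX => ?_⟩
    rw [inv_eq]
    exact h X hX _ (fun j hj => hj.1) fun j hj hcon => hj.2 (strong_of hcon)

end Pool.Agent.Results.MP_f5471b_nt.ExplicitConstantAllHeights
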