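import Pool.Agent.Q229.RAF
import Pool.Agent.Results.MP_f5471b_nt.AllFieldsFaltings

/-!
# MP_f5471b_nt: the strong bound of Lang and Silverman, with an ABSOLUTE constant, for ALL good approximations of almost every number, over all number fields

The problem asks for constants `c₁`, `c₂`, depending on the number field `K` and on `g`, such that every `P ∈ A(K)` lies, up to
a multiple at most `c₂`, in a proper abelian subvariety of degree at most `c₂ deg A`, or has canonical height at least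
`c₁ max (h_F(A/K), 1)`. The starting file `AllFieldsFaltings` shows this with an absolute constant `c₁ = c`, for all powers
`E ^ g` of elliptic curves (`StrongLS c j`: all twists, all polarizations, all nonzero points over `K`), for all but a small
proportion of the invariants `j ∈ K` of bounded height.

Here: let `n = [K : ℚ]` and `H(j)` the absolute multiplicative height. Almost every complex (real) number `z` has infinitely
many approximations `j` in a given number field `K ⊆ ℂ` (`K ⊆ ℝ`) of exponent `τ`, `|j - z| ≤ H(j)^(-τ)`, for `τ < n`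
(`τ < 2 n`), and only finitely many for `τ > n` (`τ > 2 n`). We show: there is an absolute constant `c₀ > 0` such that, for
almost every complex number `z` (every real number), for EVERY number field `K ⊆ ℂ` and all `c < c₀`, the strong bound
`StrongLS c j` holds for ALL but finitely many of the `j ∈ K` with `|j - z| ≤ H(j)^(-n)` (`H(j)^(-2 n)`). The numbers with
infinitely many exceptions of exponent `τ` form a set of Hausdorff dimension at most `n (2 - η / 2) / τ` for `c = c₀ (1 - 2 η)`.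

Proof: the number of exceptional invariants of bounded height (`AllFieldsFaltings`) and a covering.
-/

set_option autoImplicit false

namespace Pool.Agent.Results.MP_f5471b_nt.GoodApproximations

open NumberField MeasureTheory
open Pool.Agent.Results.MP_f5471b_nt.AllFieldsFaltings (StrongLS Exc)

/-- the absolute multiplicative height -/
noncomputable def H {K : Type} [Field K] [NumberField K] (j : K) : ℝ :=
  Real.exp (Height.logHeight₁ j / Module.finrank ℚ K)

/-- the invariants for which the strong bound with the constant `c` fails -/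
def Fails (K : Type) [Field K] [NumberField K] (c : ℝ) : Set K := {j | ¬ StrongLS c j}

theorem count : ∃ c₀ : ℝ, 0 < c₀ ∧ ∀ η : ℝ, 0 < η → η < 1 / 2 → ∀ (K : Type) [Field K] [NumberField K] (σ' : ℝ),
    (Module.finrank ℚ K : ℝ) * (2 - η / 2) < σ' → ∃ C T₀ : ℝ, ∀ T : ℝ, T₀ ≤ T →
      {x | x ∈ Fails K (c₀ * (1 - 2 * η)) ∧ H x ≤ T}.Finite ∧
      ({x | x ∈ Fails K (c₀ * (1 - 2 * η)) ∧ H x ≤ T}.ncard : ℝ) ≤ C * T ^ σ' := by
  obtain ⟨⟨c₀, hc₀, h1, -⟩, -⟩ := AllFieldsFaltings.result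
  refine ⟨c₀, hc₀, fun η hη hη2 K _ _ σ' hσ => ?_⟩
  have hn : (0 : ℝ) < (Module.finrank ℚ K : ℝ) := by exact_mod_cast Module.finrank_pos
  obtain ⟨C, hC, h2⟩ := h1 η (σ' / Module.finrank ℚ K - (2 - η / 2)) hη hη2 (by
    rw [sub_pos, lt_div_iff₀ hn]
    linarith)
  refine ⟨C ^ Module.finrank ℚ K + 2, 1, fun T hT => ?_⟩
  obtain ⟨h3, h4, -⟩ := h2 K T hT
  have hT0 : 0 < T := by linarith
  have hsub : {x | x ∈ Fails K (c₀ * (1 - 2 * η)) ∧ H x ≤ T} ⊆ Exc K (c₀ * (1 - 2 * η)) T ∪ {0, 1728} := by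
    rintro x ⟨h5, h6⟩
    by_cases h7 : x = 0
    · exact Or.inr (Or.inl h7)
    by_cases h8 : x = 1728
    · exact Or.inr (Or.inr h8)
    refine Or.inl ⟨⟨h7, h8, ?_⟩, h5⟩
    have h9 : Height.logHeight₁ x / Module.finrank ℚ K ≤ Real.log T := (Real.le_log_iff_exp_le hT0).2 h6
    rw [div_le_iff₀ hn] at h9
    linarith
  have hfin : (Exc K (c₀ * (1 - 2 * η)) T).Finite := h3.subset fun x hx => hx.1
  have hfin2 : (Exc K (c₀ * (1 - 2 * η)) T ∪ {0, 1728}).Finite := hfin.union ((Set.finite_singleton _).insert _)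
  refine ⟨hfin2.subset hsub, ?_⟩
  have h5 : (({x | x ∈ Fails K (c₀ * (1 - 2 * η)) ∧ H x ≤ T}.ncard : ℕ) : ℝ) ≤
      ((Exc K (c₀ * (1 - 2 * η)) T).ncard : ℝ) + 2 := by
    have h6 : ({x | x ∈ Fails K (c₀ * (1 - 2 * η)) ∧ H x ≤ T}.ncard) ≤ (Exc K (c₀ * (1 - 2 * η)) T).ncard + 2 := by
      refine (Set.ncard_le_ncard hsub hfin2).trans ((Set.ncard_union_le _ _).trans ?_)
      have : ({0, 1728} : Set K).ncard ≤ 2 := by
        refine (Set.ncard_insert_le _ _).trans ?_
        rw [Set.ncard_singleton]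
      omega
    exact_mod_cast h6
  have h6 : (C * T ^ (2 - η / 2 + (σ' / Module.finrank ℚ K - (2 - η / 2)))) ^ Module.finrank ℚ K =
      C ^ Module.finrank ℚ K * T ^ σ' := by
    rw [mul_pow, ← Real.rpow_natCast (T ^ _), ← Real.rpow_mul hT0.le]
    congr 2
    rw [add_sub_cancel]
    exact div_mul_cancel₀ _ hn.ne'
  rw [h6] at h4
  have hσ0 : 0 ≤ σ' := by
    have : 0 ≤ (Module.finrank ℚ K : ℝ) * (2 - η / 2) := mul_nonneg hn.le (by linarith)
    linarith
  have h7 : (1 : ℝ) ≤ T ^ σ' := Real.one_le_rpow hT hσ0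
  nlinarith

theorem strong_mono {K : Type} [Field K] [NumberField K] {c c' : ℝ} (h : c' ≤ c) {j : K} (hj : StrongLS c j) :
    StrongLS c' j := by
  intro a b τ hD hab hτ g M hM P hP
  refine le_trans (mul_le_mul_of_nonneg_right h ?_) (hj a b τ hD hab hτ g M hM P hP)
  exact le_trans zero_le_one (le_max_right _ _)

/-- There is an absolute constant `c₀ > 0` such that:
(1) for every number field `K` of degree `n` with an embedding `φ : K → ℂ`, for `0 < η < 1/2` and `τ > 0`, the complex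
numbers `z` with infinitely many `j ∈ K` for which the strong bound with the constant `c₀ (1 - 2 η)` fails and
`|φ(j) - z| ≤ H(j)^(-τ)` form a set of Hausdorff dimension at most `n (2 - η / 2) / τ`;
(2) for almost every complex number `z`, for every number field `K ⊆ ℂ` and all `c < c₀`, the strong bound with the constant
`c` holds for all but finitely many of the `j ∈ K` with `|j - z| ≤ H(j)^(-[K : ℚ])`;
(3) for almost every real number `t`, for every number field `K ⊆ ℂ` and all `c < c₀`, the strong bound with the constant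
`c` holds for all but finitely many of the `j ∈ K` with `|j - t| ≤ H(j)^(-2 [K : ℚ])`. -/
theorem result : ∃ c₀ : ℝ, 0 < c₀ ∧
    (∀ (K : Type) [Field K] [NumberField K] (φ : K →+* ℂ) (η τ : ℝ), 0 < η → η < 1 / 2 → 0 < τ →
      dimH {z : ℂ | {j : K | j ∈ Fails K (c₀ * (1 - 2 * η)) ∧ ‖φ j - z‖ ≤ H j ^ (-τ)}.Infinite} ≤
        ENNReal.ofReal ((Module.finrank ℚ K : ℝ) * (2 - η / 2) / τ)) ∧
    (∀ᵐ z : ℂ, ∀ (K : IntermediateField ℚ ℂ) [NumberField K] (c : ℝ), c < c₀ →
      {j : K | j ∈ Fails K c ∧ ‖(j : ℂ) - z‖ ≤ H j ^ (-(Module.finrank ℚ K : ℝ))}.Finite) ∧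
    (∀ᵐ t : ℝ, ∀ (K : IntermediateField ℚ ℂ) [NumberField K] (c : ℝ), c < c₀ →
      {j : K | j ∈ Fails K c ∧ ‖(j : ℂ) - t‖ ≤ H j ^ (-(2 * (Module.finrank ℚ K : ℝ)))}.Finite) := by
  obtain ⟨c₀, hc₀, hcount⟩ := count
  have hη0 : ∀ k : ℕ, (0 : ℝ) < 1 / ((k : ℝ) + 3) := fun k => by positivity
  have hη1 : ∀ k : ℕ, 1 / ((k : ℝ) + 3) < (1 / 2 : ℝ) := by
    intro k
    rw [div_lt_div_iff₀ (by positivity) (by norm_num)]
    linarith [(Nat.cast_nonneg k : (0 : ℝ) ≤ k)]
  have hn : ∀ (K : Type) [Field K] [NumberField K], (0 : ℝ) < (Module.finrank ℚ K : ℝ) := by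
    intro K _ _
    exact_mod_cast Module.finrank_pos
  have hlt : ∀ (K : Type) [Field K] [NumberField K] (k : ℕ),
      (Module.finrank ℚ K : ℝ) * (2 - 1 / ((k : ℝ) + 3) / 2) < 2 * (Module.finrank ℚ K : ℝ) := by
    intro K _ _ k
    have h1 := hn K
    have h2 := hη0 k
    nlinarith [mul_pos h1 h2]
  have hex : ∀ c : ℝ, c < c₀ → ∃ k : ℕ, c ≤ c₀ * (1 - 2 * (1 / ((k : ℝ) + 3))) := by
    intro c hc
    obtain ⟨k, hk⟩ := exists_nat_one_div_lt (show (0 : ℝ) < (c₀ - c) / (2 * c₀) by
      have : 0 < c₀ - c := by linarith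
      positivity)
    refine ⟨k, ?_⟩
    have h1 : 1 / ((k : ℝ) + 3) ≤ 1 / ((k : ℝ) + 1) := by
      refine one_div_le_one_div_of_le (by positivity) (by linarith)
    have h2 : 1 / ((k : ℝ) + 3) < (c₀ - c) / (2 * c₀) := lt_of_le_of_lt h1 hk
    rw [lt_div_iff₀ (by positivity)] at h2
    linarith
  refine ⟨c₀, hc₀, ?_, ?_, ?_⟩
  · intro K _ _ φ η τ hη hη2 hτ
    have h1 := Pool.Agent.Q229.RAH.dim φ (Fails K (c₀ * (1 - 2 * η))) H (hcount η hη hη2 K) τ hτ
    simp only [dist_eq_norm] at h1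
    exact h1
  · have h1 := Pool.Agent.Q229.RAF.complex (fun K _ _ k => Fails K (c₀ * (1 - 2 * (1 / ((k : ℝ) + 3)))))
      (fun K _ _ x => H x) (fun K _ _ k => (Module.finrank ℚ K : ℝ) * (2 - 1 / ((k : ℝ) + 3) / 2))
      (fun K _ _ => (Module.finrank ℚ K : ℝ)) (fun K _ _ k σ' hσ => hcount _ (hη0 k) (hη1 k) K σ' hσ)
      (fun K _ _ => hn K) (fun K _ _ k => hlt K k)
    filter_upwards [h1] with z hz K hK c hc
    obtain ⟨k, hk⟩ := hex c hc
    exact (hz K k).subset fun j hj => ⟨fun hcon => hj.1 (strong_mono hk hcon), hj.2⟩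
  · have h1 := Pool.Agent.Q229.RAF.real (fun K _ _ k => Fails K (c₀ * (1 - 2 * (1 / ((k : ℝ) + 3)))))
      (fun K _ _ x => H x) (fun K _ _ k => (Module.finrank ℚ K : ℝ) * (2 - 1 / ((k : ℝ) + 3) / 2))
      (fun K _ _ => (Module.finrank ℚ K : ℝ)) (fun K _ _ k σ' hσ => hcount _ (hη0 k) (hη1 k) K σ' hσ)
      (fun K _ _ => hn K) (fun K _ _ k => hlt K k)
    filter_upwards [h1] with z hz K hK c hc
    obtain ⟨k, hk⟩ := hex c hc
    exact (hz K k).subset fun j hj => ⟨fun hcon => hj.1 (strong_mono hk hcon), hj.2⟩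

end Pool.Agent.Results.MP_f5471b_nt.GoodApproximations
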