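import Pool.Agent.Results.MP_f5471b_nt.AlmostAllInvariants
import Pool.Agent.Q229.RAS
import Pool.Agent.Q158.RR

/-!
# The strong Lang–Silverman alternative for all elliptic curves whose invariant has a random denominator

`Holds c₁ c₂ g κ j` says: for every elliptic curve `E : y² = x³ + a x + b` over `ℚ` with the invariant `j`, `a`, `b` integers of
height at most `κ (1 + h(j))`, and every finite Galois extension `L` of `ℚ`, the alternative of the question holds with the
constants `c₁`, `c₂` for all forms over `ℚ`, split by `L`, of the power `E ^ g`, all polarizations and ALL rational points (for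
`g = 1`: for `E` and all its quadratic twists), see the starting file `AlmostAllInvariants` (there, too: every `j ≠ 0, 1728` has
such `a`, `b`, with an absolute `κ`).

For all `g ≥ 1`, `A ≥ 0` and `0 < s < 1` there are constants `c₁ > 0` and `c₂` with the following property. If the
integer `N` is given by digits or by multiples of a random real number (in the sense of `RandomReals s`), then for all `k` the
alternative holds, with these constants, for ALL rational numbers `j` whose denominator differs from `N` by at most `k` and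
with `|j| ≤ den(j) ^ A`.
-/

set_option autoImplicit false

namespace Pool.Agent.Results.MP_f5471b_nt.RandomDenominators

open Pool.Agent.TH910.LS Pool.Agent.Y725.LS NumberField
open Pool.Agent.Results.MP_f5471b_nt.AlmostAllInvariants (Alternative subvar_mono)
open Pool.Agent.H328R2.ABC (rad)

/-- the alternative, with the constants `c₁`, `c₂`, for all forms of dimension `g` of the powers of the elliptic curves
`y² = x³ + a x + b` over `ℚ` with the invariant `j` and coefficients of height at most `κ (1 + h(j))` -/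
def Holds (c₁ : ℝ) (c₂ g : ℕ) (κ : ℝ) (j : ℚ) : Prop :=
  ∀ a b : 𝓞 ℚ, 4 * (a : ℚ) ^ 3 + 27 * (b : ℚ) ^ 2 ≠ 0 → jinv (a : ℚ) b = j →
    absH (a : ℚ) + absH (b : ℚ) ≤ κ * (1 + absH j) →
    ∀ (L : Type) [Field L] [NumberField L] [IsGalois ℚ L] [DecidableEq L],
      ChatLim L a b ∧ Alternative c₁ c₂ g a b L

/-- the alternative holds for ALL rational invariants `j` whose denominator differs from `N` by at most `k` and with
`|j| ≤ den(j) ^ A` -/
def Good (c₁ : ℝ) (c₂ g : ℕ) (κ A : ℝ) (k N : ℕ) : Prop :=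
  ∀ j : ℚ, |(j.den : ℝ) - N| ≤ k → |(j : ℝ)| ≤ (j.den : ℝ) ^ A → Holds c₁ c₂ g κ j

theorem core (g : ℕ) (κ s : ℝ) (hg : 0 < g) (hκ : 0 ≤ κ) (hs : 0 < s) : ∃ c₁ : ℝ, 0 < c₁ ∧ ∃ c₂ : ℕ, ∀ j : ℚ,
    Height.logHeight₁ j ≤ s * Pool.Agent.Y728.AK.jbad j → Holds c₁ c₂ g κ j := by
  obtain ⟨c, δ, hc, hδ, c₂, h⟩ := strong_main 1 g 0 hg κ s hκ
  obtain ⟨A, c', hc', c₂', h⟩ := h 1 one_ne_zero
  refine ⟨min c c', lt_min hc hc', max c₂ c₂', fun j hj a b hab hjab hab' L _ _ _ _ =>
    ⟨chatLim a b hab L, fun ρ M P T hf hM hP hT => ?_⟩⟩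
  have hSz := Pool.Agent.Q229.RAS.szp' hs.le hj hab hjab L hδ.le
  have hK : Module.finrank ℚ ℚ ≤ 1 := by rw [Module.finrank_self]
  have hpos : 0 ≤ 1 + absH (jinv (a : ℚ) b) + logNorms T / Module.finrank ℚ L := by
    have h2 := Pool.Agent.Y728.AK.absH_nonneg (jinv (a : ℚ) b)
    have h3 : 0 ≤ logNorms T / Module.finrank ℚ L :=
      div_nonneg (Finset.sum_nonneg fun _ _ => Real.log_natCast_nonneg _) (Nat.cast_nonneg _)
    linarith
  rcases h ℚ hK a b hab (by rw [hjab]; exact hab') L hSz ρ M P T hf hM hP hT with k | ⟨k1, k2⟩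
  · left
    split_ifs at k
    · exact subvar_mono (le_max_left _ _) hM k
    · exact subvar_mono (le_max_right _ _) hM k
  · right
    refine ⟨k1, le_trans (mul_le_mul_of_nonneg_right ?_ hpos) k2⟩
    split_ifs
    · exact min_le_left _ _
    · exact min_le_right _ _

/-- the positive integers `m` with a radical smaller than `m ^ s` -/
def Small (s : ℝ) : Set ℕ := {m : ℕ | 1 ≤ m ∧ (rad m : ℝ) < (m : ℝ) ^ s}

theorem count (s : ℝ) (hs : 0 < s) (ε : ℝ) (hε : 0 < ε) : ∃ C : ℝ, ∀ X : ℝ, 1 ≤ X →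
    {x : ℕ | x ∈ Small s ∧ (x : ℝ) ≤ X}.Finite ∧
      ({x : ℕ | x ∈ Small s ∧ (x : ℝ) ≤ X}.ncard : ℝ) ≤ C * X ^ (s + ε) := by
  classical
  obtain ⟨C, hC, h⟩ := Pool.Agent.Q229.RAJ.count_rad ε hε
  refine ⟨C, fun X hX => ?_⟩
  have hX0 : 0 < X := by linarith
  obtain ⟨N, hN⟩ : ∃ N : ℕ, N = ⌊X⌋₊ := ⟨_, rfl⟩
  have hN1 : 1 ≤ N := by
    rw [hN]
    exact Nat.le_floor (by exact_mod_cast hX)
  have hNX : (N : ℝ) ≤ X := by
    rw [hN]
    exact Nat.floor_le hX0.le
  have hsub : {x : ℕ | x ∈ Small s ∧ (x : ℝ) ≤ X} ⊆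
      (((Finset.Icc 1 N).filter fun n => (rad n : ℝ) ≤ X ^ s : Finset ℕ) : Set ℕ) := by
    rintro m ⟨⟨h1, h2⟩, h3⟩
    rw [Finset.mem_coe, Finset.mem_filter, Finset.mem_Icc]
    refine ⟨⟨h1, ?_⟩, h2.le.trans (Real.rpow_le_rpow (Nat.cast_nonneg _) h3 hs.le)⟩
    rw [hN]
    exact Nat.le_floor h3
  refine ⟨(Finset.finite_toSet _).subset hsub, ?_⟩
  have h1 := Set.ncard_le_ncard hsub (Finset.finite_toSet _)
  rw [Set.ncard_coe_finset] at h1
  calc ({x : ℕ | x ∈ Small s ∧ (x : ℝ) ≤ X}.ncard : ℝ)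
      ≤ (((Finset.Icc 1 N).filter fun n => (rad n : ℝ) ≤ X ^ s).card : ℝ) := by exact_mod_cast h1
    _ ≤ C * X ^ s * (N : ℝ) ^ ε := h N (X ^ s) hN1 (by positivity)
    _ ≤ C * X ^ s * X ^ ε :=
        mul_le_mul_of_nonneg_left (Real.rpow_le_rpow (Nat.cast_nonneg _) hNX hε.le) (by positivity)
    _ = C * X ^ (s + ε) := by rw [Real.rpow_add hX0, mul_assoc]

/-- **Theorem.** For all `g ≥ 1`, `κ ≥ 0`, `A ≥ 0` and `0 < s < 1` there are `c₁ > 0` and `c₂` such that in the sense
of `RandomReals s` (windows of digits in all bases, and integers near the multiples `α v_k`, for random real numbers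
`α`, with Hausdorff dimensions and measures of the exceptional sets) the property `Good c₁ c₂ g κ A k N` holds for all
`k` at once. -/
theorem result (g : ℕ) (hg : 0 < g) (κ : ℝ) (hκ : 0 ≤ κ) (A : ℝ) (hA : 0 ≤ A) (s : ℝ) (hs : 0 < s)
    (hs1 : s < 1) : ∃ c₁ : ℝ, 0 < c₁ ∧ ∃ c₂ : ℕ,
    Pool.Agent.Q21.DW.RandomReals s (fun (k : ℕ) (N : ℕ) => Good c₁ c₂ g κ A k N) := by
  have hs' : 0 < (A + 1) / s := by positivity
  obtain ⟨c, hc, c₂, h⟩ := core g κ ((A + 1) / s) hg hκ hs'
  refine ⟨c, hc, c₂, Pool.Agent.Q158.RR.mono (Pool.Agent.Q158.RR.random (fun _ : Unit => Small s)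
    (fun _ m => (m : ℝ)) s hs.le hs1 fun _ ε hε => count s hs ε hε) (fun k => ((), k)) fun k N h1 => ?_⟩
  intro j hj hjA
  have hd : 0 < j.den := j.pos
  have hd1 : (1 : ℝ) ≤ j.den := by exact_mod_cast hd
  have hd0 : (0 : ℝ) < j.den := by linarith
  have h2 : (j.den : ℝ) ^ s ≤ rad j.den := by
    by_contra hcon
    exact absurd (h1 j.den ⟨hd, not_le.1 hcon⟩) (not_lt.2 hj)
  refine h j ?_
  rw [Pool.Agent.Q229.RAS.logHeight_rat]
  have e1 : (j.den : ℝ) ^ (A + 1) = (j.den : ℝ) ^ A * j.den := by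
    rw [Real.rpow_add hd0, Real.rpow_one]
  have h3 : ((max j.num.natAbs j.den : ℕ) : ℝ) ≤ (j.den : ℝ) ^ (A + 1) := by
    rw [Nat.cast_max, Nat.cast_natAbs, Int.cast_abs]
    refine max_le ?_ ?_
    · have e : (j.num : ℝ) = j * j.den := by exact_mod_cast (Rat.mul_den_eq_num j).symm
      rw [e, abs_mul, abs_of_pos hd0, e1]
      exact mul_le_mul_of_nonneg_right hjA hd0.le
    · rw [e1]
      exact le_mul_of_one_le_left hd0.le (Real.one_le_rpow hd1 hA)
  have h4 : (0 : ℝ) < ((max j.num.natAbs j.den : ℕ) : ℝ) := by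
    exact_mod_cast lt_of_lt_of_le hd (le_max_right _ _)
  have h5 : Real.log ((max j.num.natAbs j.den : ℕ) : ℝ) ≤ (A + 1) * Real.log j.den := by
    rw [← Real.log_rpow hd0]
    exact Real.log_le_log h4 h3
  have h6 : s * Real.log j.den ≤ Real.log (rad j.den) := by
    rw [← Real.log_rpow hd0]
    exact Real.log_le_log (by positivity) h2
  calc Real.log ((max j.num.natAbs j.den : ℕ) : ℝ) ≤ (A + 1) * Real.log j.den := h5
    _ = (A + 1) / s * (s * Real.log j.den) := by
        field_simp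
    _ ≤ (A + 1) / s * Real.log (rad j.den) := mul_le_mul_of_nonneg_left h6 hs'.le
    _ ≤ _ := mul_le_mul_of_nonneg_left (Pool.Agent.Q229.RAS.jbad_ge j) hs'.le

end Pool.Agent.Results.MP_f5471b_nt.RandomDenominators
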