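import Pool.Agent.Results.MP_f5471b_nt.AlmostAllInvariants
import Pool.Agent.Q229.RAS

/-!
# The strong Lang–Silverman alternative for the elliptic curves with invariants near almost every real number

`Holds c₁ c₂ g κ j` says: for every elliptic curve `E : y² = x³ + a x + b` over `ℚ` with the invariant `j`, `a`, `b` integers of
height at most `κ (1 + h(j))`, and every finite Galois extension `L` of `ℚ`, the alternative of the question holds with the
constants `c₁`, `c₂` for all forms over `ℚ`, split by `L`, of the power `E ^ g`, all polarizations and ALL rational points (for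
`g = 1`: for `E` and all its quadratic twists), see the starting file `AlmostAllInvariants` (there, too: every `j ≠ 0, 1728` has
such `a`, `b`, with an absolute `κ`).

In the starting file the alternative holds, with uniform constants, for all invariants outside a set which is thin in the order by
truncated counting functions. Here we show that there is no exception near almost every real number: for every `τ > 1` there are
constants `c₁ > 0`, `c₂` such that for almost every real number `t` the alternative holds for ALL but finitely many of the rational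
numbers `j` with `|t - j| ≤ den(j) ^ (-τ)`, in particular for the convergents of `t`.
-/

set_option autoImplicit false

namespace Pool.Agent.Results.MP_f5471b_nt.RationalsNearRealInvariants

open Pool.Agent.TH910.LS Pool.Agent.Y725.LS NumberField MeasureTheory Filter
open Pool.Agent.Results.MP_f5471b_nt.AlmostAllInvariants (Alternative subvar_mono)

/-- the alternative, with the constants `c₁`, `c₂`, for all forms of dimension `g` of the powers of the elliptic curves
`y² = x³ + a x + b` over `ℚ` with the invariant `j` and coefficients of height at most `κ (1 + h(j))` -/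
def Holds (c₁ : ℝ) (c₂ g : ℕ) (κ : ℝ) (j : ℚ) : Prop :=
  ∀ a b : 𝓞 ℚ, 4 * (a : ℚ) ^ 3 + 27 * (b : ℚ) ^ 2 ≠ 0 → jinv (a : ℚ) b = j →
    absH (a : ℚ) + absH (b : ℚ) ≤ κ * (1 + absH j) →
    ∀ (L : Type) [Field L] [NumberField L] [IsGalois ℚ L] [DecidableEq L],
      ChatLim L a b ∧ Alternative c₁ c₂ g a b L

theorem core (g : ℕ) (κ s : ℝ) (hg : 0 < g) (hκ : 0 ≤ κ) (hs : 0 < s) : ∃ c₁ : ℝ, 0 < c₁ ∧ ∃ c₂ : ℕ, ∀ j : ℚ,
    Height.logHeight₁ j ≤ s * Pool.Agent.Y728.AK.jbad j → Holds c₁ c₂ g κ j := by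
  obtain ⟨c, δ, hc, hδ, c₂, h⟩ := strong_main 1 g 0 hg κ s hκ
  obtain ⟨A, c', hc', c₂', h⟩ := h 1 one_ne_zero
  refine ⟨min c c', lt_min hc hc', max c₂ c₂', fun j hj a b hab hjab hab' L _ _ _ _ =>
    ⟨chatLim a b hab L, fun ρ M P T hf hM hP hT => ?_⟩⟩
  have hSz := Pool.Agent.Q229.RAS.szp' hs.le hj hab hjab L hδ.le
  have hK : Module.finrank ℚ ℚ ≤ 1 := by rw [Module.finrank_self]
  have hpos : 0 ≤ 1 + absH (jinv (a : ℚ) b) + logNorms T / Module.finrank ℚ L := by
    have h2 := Pool.Agent.Y728.AK.absH_nonneg (jinv (a : ℚ) b)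
    have h3 : 0 ≤ logNorms T / Module.finrank ℚ L :=
      div_nonneg (Finset.sum_nonneg fun _ _ => Real.log_natCast_nonneg _) (Nat.cast_nonneg _)
    linarith
  rcases h ℚ hK a b hab (by rw [hjab]; exact hab') L hSz ρ M P T hf hM hP hT with k | ⟨k1, k2⟩
  · left
    split_ifs at k
    · exact subvar_mono (le_max_left _ _) hM k
    · exact subvar_mono (le_max_right _ _) hM k
  · right
    refine ⟨k1, le_trans (mul_le_mul_of_nonneg_right ?_ hpos) k2⟩
    split_ifs
    · exact min_le_left _ _
    · exact min_le_right _ _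

/-- **The strong Lang–Silverman alternative for all curves with rational invariants near almost every real number.** Let
`g ≥ 1` and `κ ≥ 0`.

(1) For every `s > 0` there are constants `c₁ > 0` and `c₂` such that for every `τ > 0` there is a set `Z` of real numbers of
Hausdorff dimension at most `(1 + 1 / s) / τ`, of measure zero if `τ > 1 + 1 / s`, such that for all `t ∉ Z` and all large `T`
the alternative holds, with these constants, for ALL rational invariants `j` of denominator at most `T` with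
`|t - j| ≤ T ^ (-τ)`.

(2) For every `τ > 1` there are constants `c₁ > 0` and `c₂` such that for almost every real number `t` the alternative holds, with
these constants, for all but finitely many of the rational invariants `j` with `|t - j| ≤ den(j) ^ (-τ)`. -/
theorem result (g : ℕ) (hg : 0 < g) (κ : ℝ) (hκ : 0 ≤ κ) :
    (∀ s : ℝ, 0 < s → ∃ c₁ : ℝ, 0 < c₁ ∧ ∃ c₂ : ℕ, ∀ τ : ℝ, 0 < τ →
      ∃ Z : Set ℝ, dimH Z ≤ ENNReal.ofReal ((1 + 1 / s) / τ) ∧ (1 + 1 / s < τ → volume Z = 0) ∧
        ∀ t : ℝ, t ∉ Z → ∀ᶠ T : ℝ in atTop, ∀ j : ℚ, (j.den : ℝ) ≤ T → |t - j| ≤ T ^ (-τ) → Holds c₁ c₂ g κ j) ∧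
    ∀ τ : ℝ, 1 < τ → ∃ c₁ : ℝ, 0 < c₁ ∧ ∃ c₂ : ℕ, ∀ᵐ t : ℝ,
      {j : ℚ | |t - j| ≤ (j.den : ℝ) ^ (-τ) ∧ ¬ Holds c₁ c₂ g κ j}.Finite := by
  constructor
  · intro s hs
    obtain ⟨c, hc, c₂, h⟩ := core g κ s hg hκ hs
    refine ⟨c, hc, c₂, fun τ hτ => ?_⟩
    obtain ⟨Z, h1, h2, h3⟩ := Pool.Agent.Q229.RAS.near_szp hs τ hτ
    refine ⟨Z, h1, h2, fun t ht => ?_⟩
    filter_upwards [(h3 t ht).2] with T hT j hj hjt
    exact h j (hT j hj hjt)
  · intro τ hτ
    have hτ1 : 0 < τ - 1 := by linarith
    have hs : 0 < 2 / (τ - 1) := by positivity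
    obtain ⟨c, hc, c₂, h⟩ := core g κ (2 / (τ - 1)) hg hκ hs
    refine ⟨c, hc, c₂, ?_⟩
    have hτ0 : 0 < τ := by linarith
    obtain ⟨Z, -, h2, h3⟩ := Pool.Agent.Q229.RAS.near_szp hs τ hτ0
    have hlt : 1 + 1 / (2 / (τ - 1)) < τ := by
      rw [one_div_div]
      linarith
    filter_upwards [compl_mem_ae_iff.2 (h2 hlt)] with t ht
    have h4 : ∀ᶠ T : ℝ in atTop, ∀ x : ℚ, (x.den : ℝ) ≤ T → |t - x| ≤ T ^ (-τ) →
        x ∉ {j : ℚ | ¬ Holds c c₂ g κ j} := by
      filter_upwards [(h3 t ht).2] with T hT x hx hxt hcon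
      exact hcon (h x (hT x hx hxt))
    refine (Pool.Agent.Q229.RAQ.finite_den hτ0 h4).subset ?_
    rintro x ⟨hx1, hx2⟩
    exact ⟨hx2, hx1⟩

end Pool.Agent.Results.MP_f5471b_nt.RationalsNearRealInvariants
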